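import Pool.Agent.helper95.P3.ClassifyB

/-!
# P3, module D1a: disc families of type II cycles exist
-/

namespace Pool.Agent.helper56.P3

open Finset Pool.Agent.helper56.Per

variable {K : Type*} [Field K] {b c ε : K} {n q : ℕ} {lam : K} {W : ℕ → K}
variable {Γ : Type*} [LinearOrderedCommGroupWithZero Γ]

/-- the expansion factor of the map at the `i`-th point -/
private noncomputable def phi (v : Valuation K Γ) (W : ℕ → K) (i : ℕ) : Γ :=
  v (W i ^ 2 - 1) / v (W i) ^ 2

private theorem sq_ne_one (v : Valuation K Γ) (h : WCyc b c n lam W) (hl : v lam = 1) (i : ℕ) :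
    W i ^ 2 - 1 ≠ 0 := by
  have hl0 : lam ≠ 0 := by
    rintro rfl
    rw [map_zero] at hl
    exact zero_ne_one hl
  have hper : Function.Periodic W n := h.per
  have hprod : ∏ j ∈ range n, (W j ^ 2 - 1) ≠ 0 := by
    rw [h.mul]
    exact mul_ne_zero (mul_ne_zero hl0 (pow_ne_zero _ h.b0))
      (prod_ne_zero_iff.2 fun j _ => pow_ne_zero _ (h.ne0 j))
  have := prod_ne_zero_iff.1 hprod (i % n) (mem_range.2 (Nat.mod_lt _ h.npos))
  rwa [hper.map_mod_nat] at this

private theorem phi_pos (v : Valuation K Γ) (h : WCyc b c n lam W) (hl : v lam = 1) (i : ℕ) :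
    0 < phi v W i := by
  refine zero_lt_iff.2 (div_ne_zero (v.ne_zero_iff.2 (sq_ne_one v h hl i)) ?_)
  exact pow_ne_zero _ (v.ne_zero_iff.2 (h.ne0 i))

private theorem phi_mul (v : Valuation K Γ) (h : WCyc b c n lam W) (i : ℕ) :
    phi v W i * v (W i) ^ 2 = v (W i ^ 2 - 1) :=
  div_mul_cancel₀ _ (pow_ne_zero _ (v.ne_zero_iff.2 (h.ne0 i)))

private theorem phi_prod (v : Valuation K Γ) (h : WCyc b c n lam W) (hb : v b = 1)
    (hl : v lam = 1) : ∏ i ∈ range n, phi v W i = 1 := by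
  have hne : ∏ j ∈ range n, v (W j) ^ 2 ≠ 0 :=
    prod_ne_zero_iff.2 fun j _ => pow_ne_zero _ (v.ne_zero_iff.2 (h.ne0 j))
  unfold phi
  rw [prod_div_distrib, div_eq_one_iff_eq hne]
  have := congrArg v h.mul
  rw [map_mul, map_mul, map_pow, hb, hl, one_pow, one_mul, one_mul, map_prod, map_prod] at this
  rw [this]
  exact prod_congr rfl fun j _ => map_pow _ _ _

/-- the radii, before normalisation -/
private noncomputable def rad (v : Valuation K Γ) (W : ℕ → K) (i : ℕ) : Γ :=
  ∏ j ∈ range i, phi v W j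

private theorem rad_per (v : Valuation K Γ) (h : WCyc b c n lam W) (hb : v b = 1)
    (hl : v lam = 1) : Function.Periodic (rad v W) n := by
  intro i
  unfold rad
  rw [add_comm, prod_range_add, phi_prod v h hb hl, one_mul]
  refine prod_congr rfl fun j _ => ?_
  unfold phi
  rw [add_comm n j, h.per]

private theorem rad_pos (v : Valuation K Γ) (h : WCyc b c n lam W) (hl : v lam = 1) (i : ℕ) :
    0 < rad v W i :=
  zero_lt_iff.2 (prod_ne_zero_iff.2 fun j _ => (phi_pos v h hl j).ne')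

/-- away from the near critical visits the map expands -/
private theorem one_le_phi (v : Valuation K Γ) (h : WCyc b c n lam W) {i : ℕ}
    (hi : ¬ (v (W i) = 1 ∧ v (W i ^ 2 - 1) < 1)) : 1 ≤ phi v W i := by
  have h0 : v (W i) ≠ 0 := v.ne_zero_iff.2 (h.ne0 i)
  unfold phi
  rcases lt_trichotomy (v (W i)) 1 with hlt | heq | hgt
  · have h1 : v (W i ^ 2) < 1 := by
      rw [map_pow]
      exact pow_lt_one₀ zero_le hlt two_ne_zero
    have h2 : v (W i ^ 2 - 1) = 1 := by
      rw [Valuation.map_sub_eq_of_lt_right _ (by rwa [map_one]), map_one]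
    rw [h2, one_div]
    refine (one_le_inv₀ (zero_lt_iff.2 (pow_ne_zero _ h0))).2 ?_
    rw [← map_pow]
    exact h1.le
  · have h2 : 1 ≤ v (W i ^ 2 - 1) := by
      by_contra hc
      exact hi ⟨heq, not_le.1 hc⟩
    rw [heq, one_pow, div_one]
    exact h2
  · have h1 : 1 < v (W i ^ 2) := by
      rw [map_pow]
      exact one_lt_pow₀ hgt two_ne_zero
    have h2 : v (W i ^ 2 - 1) = v (W i ^ 2) := by
      rw [Valuation.map_sub_eq_of_lt_left _ (by rwa [map_one])]
    rw [h2, map_pow, div_self (pow_ne_zero _ h0)]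

theorem disc_exists (v : Valuation K Γ) (hc : Ctx v b c) (hz : CharZ v) (hr : Rot v b c q)
    (h : WCyc b c n lam W) (hl : v lam = 1) (hII : TyII v W) (hε : ε ^ 2 = 1)
    (hnear : ∀ i, v (W i) = 1 → v (W i ^ 2 - 1) < 1 → v (W i - ε) < 1) :
    ∃ (r : ℕ → Γ) (i0 : ℕ), Disc v c n W ε r i0 := by
  classical
  have hperW : Function.Periodic W n := h.per
  have hradp := rad_per v h hc.vb hl
  obtain ⟨i1, hi1, hi1'⟩ := h.near_exists v hc.vb hl hII
  set S : Finset ℕ := {i ∈ range n | v (W i) = 1 ∧ v (W i ^ 2 - 1) < 1} with hS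
  have hmod : ∀ i, v (W i) = 1 → v (W i ^ 2 - 1) < 1 → i % n ∈ S := by
    intro i h1 h2
    rw [hS, mem_filter, mem_range, hperW.map_mod_nat]
    exact ⟨Nat.mod_lt _ h.npos, h1, h2⟩
  obtain ⟨i0, hi0, hmin⟩ := exists_min_image S (fun i => v (W i - ε) / rad v W i)
    ⟨i1 % n, hmod i1 hi1 hi1'⟩
  have hi0' : i0 ∈ range n ∧ v (W i0) = 1 ∧ v (W i0 ^ 2 - 1) < 1 := by
    rw [hS, mem_filter] at hi0
    exact hi0
  set s : Γ := v (W i0 - ε) / rad v W i0 with hs
  have he : ∀ i, v (W i - ε) ≠ 0 := by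
    intro i hi
    rw [v.zero_iff, sub_eq_zero] at hi
    exact sq_ne_one v h hl i (by rw [hi, hε, sub_self])
  have hspos : 0 < s := zero_lt_iff.2 (div_ne_zero (he i0) (rad_pos v h hl i0).ne')
  have hrecr : ∀ i, s * rad v W (i + 1) * v (W i) ^ 2 = s * rad v W i * v (W i ^ 2 - 1) := by
    intro i
    rw [← phi_mul v h i]
    unfold rad
    rw [prod_range_succ, ← mul_assoc, mul_assoc (s * _)]
  have hle : ∀ i, v (W i) = 1 → v (W i ^ 2 - 1) < 1 → s * rad v W i ≤ v (W i - ε) := by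
    intro i h1 h2
    have h3 := hmin _ (hmod i h1 h2)
    rw [hradp.map_mod_nat, hperW.map_mod_nat] at h3
    have h4 := mul_le_mul_left h3 (rad v W i)
    rwa [div_mul_cancel₀ _ (rad_pos v h hl i).ne'] at h4
  have hmono : ∀ i, ¬ (v (W i) = 1 ∧ v (W i ^ 2 - 1) < 1) →
      s * rad v W i ≤ s * rad v W (i + 1) := by
    intro i hi
    unfold rad
    rw [prod_range_succ, ← mul_assoc]
    exact le_mul_of_one_le_right' (one_le_phi v h hi)
  have hlt : ∀ d i, v (W (i + d)) = 1 → v (W (i + d) ^ 2 - 1) < 1 → s * rad v W i < 1 := by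
    intro d
    induction d with
    | zero =>
      intro i h1 h2
      exact (hle i h1 h2).trans_lt (hnear i h1 h2)
    | succ d ih =>
      intro i h1 h2
      by_cases hi : v (W i) = 1 ∧ v (W i ^ 2 - 1) < 1
      · exact (hle i hi.1 hi.2).trans_lt (hnear i hi.1 hi.2)
      · refine (hmono i hi).trans_lt (ih (i + 1) ?_ ?_)
        · rwa [show i + 1 + d = i + (d + 1) by ring]
        · rwa [show i + 1 + d = i + (d + 1) by ring]
  have hlt1 : ∀ i, s * rad v W i < 1 := by
    intro i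
    have hni : i ≤ i1 + i * n := le_add_left (Nat.le_mul_of_pos_right i h.npos)
    have hW : W (i + (i1 + i * n - i)) = W i1 := by
      rw [Nat.add_sub_cancel' hni]
      exact hperW.nat_mul i i1
    exact hlt (i1 + i * n - i) i (by rw [hW]; exact hi1) (by rw [hW]; exact hi1')
  refine ⟨fun i => s * rad v W i, i0, ⟨fun i => mul_pos hspos (rad_pos v h hl i), ?_, hrecr, hle,
    hi0'.2.1, hi0'.2.2, ?_, hlt1, ?_⟩⟩
  · intro i
    simp only [hradp i]
  · simp only [hs]
    exact div_mul_cancel₀ _ (rad_pos v h hl i0).ne'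
  · intro i hi
    have h1 : v (W i ^ 2) < 1 := by
      rw [map_pow]
      exact pow_lt_one₀ zero_le hi two_ne_zero
    have h2 : v (W i ^ 2 - 1) = 1 := by
      rw [Valuation.map_sub_eq_of_lt_right _ (by rwa [map_one]), map_one]
    have h3 := hrecr i
    rw [h2, mul_one, (h.hole_next v hc hz hr hi).1] at h3
    show s * rad v W i < v c ^ 2
    rw [← h3]
    have hc0 : 0 < v c ^ 2 := zero_lt_iff.2 (pow_ne_zero _ (v.ne_zero_iff.2 hc.c0))
    calc s * rad v W (i + 1) * v c ^ 2 < 1 * v c ^ 2 :=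
          mul_lt_mul_of_pos_right (hlt1 (i + 1)) hc0
      _ = v c ^ 2 := one_mul _

end Pool.Agent.helper56.P3
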