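import Pool.Agent.helper56.P3.Util
import Pool.Agent.helper36.P3.Places
import Pool.Agent.helper95.P3.ClassifyB
import Pool.Agent.helper69.P3.C1
import Pool.Agent.helper56.P3.Chain
import Pool.Agent.helper80.P3.TwoTwo

/-!
# P3, module E1: negativity at non-mixed ends
-/

namespace Pool.Agent.helper56.P3

open Finset Pool.Agent.helper56.Per

variable {K : Type*} [Field K] {b c : K} {n m q : ℕ} {W W' : ℕ → K}

/-- one factor -/
private theorem good_factor {Γ : Type*} [LinearOrderedCommGroupWithZero Γ] (v : Valuation K Γ)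
    {x y : K} (hx : 1 ≤ v x) (hx' : v (x ^ 2 - 1) = v x ^ 2) (hy : 1 ≤ v y)
    (hy' : v (y ^ 2 - 1) = v y ^ 2) : v (EW x y) ≤ 1 ∧ (1 < v x → 1 < v y → v (EW x y) < 1) := by
  have x0 : v x ≠ 0 := (zero_lt_one.trans_le hx).ne'
  have y0 : v y ≠ 0 := (zero_lt_one.trans_le hy).ne'
  have hval : v (EW x y) = v (x - y) ^ 2 / (v x ^ 2 * v y ^ 2) := by
    unfold EW
    rw [map_div₀, map_mul, map_pow, hx', hy']
  have hpos : 0 < v x ^ 2 * v y ^ 2 :=
    zero_lt_iff.2 (mul_ne_zero (pow_ne_zero _ x0) (pow_ne_zero _ y0))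
  have hle : v (x - y) ≤ v x * v y := by
    refine (v.map_sub x y).trans (max_le ?_ ?_)
    · exact le_mul_of_one_le_right' hy
    · exact le_mul_of_one_le_left' hx
  rw [hval]
  constructor
  · rw [div_le_one₀ hpos, ← mul_pow]
    exact pow_le_pow_left₀ zero_le hle 2
  · intro h1 h2
    have hlt : v (x - y) < v x * v y := by
      refine (v.map_sub x y).trans_lt (max_lt ?_ ?_)
      · exact lt_mul_of_one_lt_right (zero_lt_iff.2 x0) h2
      · exact lt_mul_of_one_lt_left (zero_lt_iff.2 y0) h1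
    rw [div_lt_one₀ hpos, ← mul_pow]
    exact pow_lt_pow_left₀ hlt zero_le two_ne_zero

/-- a double product of factors at most one, one of them less than one -/
private theorem prod_lt {Γ : Type*} [LinearOrderedCommGroupWithZero Γ] {f : ℕ → ℕ → Γ}
    (hf : ∀ i j, f i j ≤ 1) {i0 j0 : ℕ} (hi : i0 < n) (hj : j0 < m) (h0 : f i0 j0 < 1) :
    ∏ i ∈ range n, ∏ j ∈ range m, f i j < 1 := by
  have hin : ∀ i, ∏ j ∈ range m, f i j ≤ 1 := fun i => prod_le_one' fun j _ => hf i j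
  have h1 : ∏ j ∈ range m, f i0 j < 1 := by
    rw [← mul_prod_erase _ _ (mem_range.2 hj)]
    exact mul_lt_one_of_lt_of_le h0 (prod_le_one' fun j _ => hf i0 j)
  rw [← mul_prod_erase _ _ (mem_range.2 hi)]
  exact mul_lt_one_of_lt_of_le h1 (prod_le_one' fun i _ => hin i)

theorem good_neg {Γ : Type*} [LinearOrderedCommGroupWithZero Γ] (v : Valuation K Γ)
    {L L' : K} (h : WCyc b c n L W) (h' : WCyc b c m L' W')
    (hW : ∀ i, 1 ≤ v (W i) ∧ v (W i ^ 2 - 1) = v (W i) ^ 2)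
    (hW' : ∀ i, 1 ≤ v (W' i) ∧ v (W' i ^ 2 - 1) = v (W' i) ^ 2)
    (ho : ∃ i, 1 < v (W i)) (ho' : ∃ i, 1 < v (W' i)) :
    v (∏ i ∈ range n, ∏ j ∈ range m, EW (W i) (W' j)) < 1 := by
  obtain ⟨i, hi⟩ := ho
  obtain ⟨j, hj⟩ := ho'
  have hper : Function.Periodic W n := h.per
  have hper' : Function.Periodic W' m := h'.per
  rw [← hper.map_mod_nat] at hi
  rw [← hper'.map_mod_nat] at hj
  simp only [map_prod]
  exact prod_lt (fun i j => (good_factor v (hW i).1 (hW i).2 (hW' j).1 (hW' j).2).1)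
    (Nat.mod_lt _ h.npos) (Nat.mod_lt _ h'.npos)
    ((good_factor v (hW _).1 (hW _).2 (hW' _).1 (hW' _).2).2 hi hj)

private theorem TyO.good {Γ : Type*} [LinearOrderedCommGroupWithZero Γ] {v : Valuation K Γ}
    (h : TyO v W) (i : ℕ) : 1 ≤ v (W i) ∧ v (W i ^ 2 - 1) = v (W i) ^ 2 := by
  refine ⟨(h i).le, ?_⟩
  have h1 : 1 < v (W i ^ 2) := by
    rw [map_pow]
    exact one_lt_pow₀ (h i) two_ne_zero
  rw [Valuation.map_sub_eq_of_lt_left _ (by rwa [map_one]), map_pow]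

private theorem TyI.good {Γ : Type*} [LinearOrderedCommGroupWithZero Γ] {v : Valuation K Γ}
    (h : TyI v W) (i : ℕ) : 1 ≤ v (W i) ∧ v (W i ^ 2 - 1) = v (W i) ^ 2 := by
  refine ⟨h.1 i, ?_⟩
  rcases (h.1 i).eq_or_lt with heq | hlt
  · rw [← heq, one_pow]
    exact h.2.2 i heq.symm
  · have h1 : 1 < v (W i ^ 2) := by
      rw [map_pow]
      exact one_lt_pow₀ hlt two_ne_zero
    rw [Valuation.map_sub_eq_of_lt_left _ (by rwa [map_one]), map_pow]

/-- a type I or type O cycle does not coexist with a type II cycle whose rotation closes up -/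
private theorem no_O_II {k : Type*} [Field k] [Algebra k K] [CharZero k]
    [Algebra.IsAlgebraic ℚ k] {P : ValuationSubring K} {lam' : k} (hP : IsPl k P)
    (hc : Ctx P.valuation b c) (h' : WCyc b c m (algebraMap k K lam') W') (l0' : lam' ≠ 0)
    (hn : 0 < n) (hO : P.valuation (b ^ n - 1) < P.valuation c) (hr : Rot P.valuation b c q)
    (hII : TyII P.valuation W') : False := by
  have hz := hP.charZ
  have hqn : q ∣ n := by
    by_contra hq
    rw [hr.pow_one P.valuation hc hq] at hO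
    exact absurd (hO.trans hc.vc) (lt_irrefl _)
  rw [hr.pow_dvd P.valuation hc hz hqn hn.ne', ← v_TT hc.vb hc.c0] at hO
  have hvc : 0 < P.valuation c := zero_lt_iff.2 (P.valuation.ne_zero_iff.2 hc.c0)
  have hT : P.valuation (TT b c q) < 1 := by
    by_contra hT
    exact absurd (hO.trans_le (le_mul_of_one_le_left' (not_lt.1 hT))) (lt_irrefl _)
  obtain ⟨ε, hε, ⟨ℓ, -, hℓ⟩, -, -⟩ := near_II (t := 0) hP hc hr h' l0'
    (by rwa [map_zero, sub_zero]) hII
  exact (hits_sign hε hε hℓ hℓ).2 rfl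

theorem end_neg {k : Type*} [Field k] [Algebra k K] [CharZero k] [Algebra.IsAlgebraic ℚ k]
    {P : ValuationSubring K} {lam lam' : k} (hP : IsPl k P)
    (hc : Ctx P.valuation b c) (h : WCyc b c n (algebraMap k K lam) W)
    (h' : WCyc b c m (algebraMap k K lam') W') (hne : ∀ i j, W i ≠ W' j)
    (l0 : lam ≠ 0) (l0' : lam' ≠ 0) (hmix : ∀ q, ¬ Mixed k P b c W W' q)
    (hmix' : ∀ q, ¬ Mixed k P b c W' W q) :
    P.valuation (∏ i ∈ range n, ∏ j ∈ range m, EW (W i) (W' j)) < 1 := by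
  have hz := hP.charZ
  have hl := hP.cst lam l0
  have hl' := hP.cst lam' l0'
  have outI : ∀ {n' q' : ℕ} {L : K} {Y : ℕ → K}, WCyc b c n' L Y → Rot P.valuation b c q' →
      TyI P.valuation Y → ∃ i, 1 < P.valuation (Y i) := by
    intro n' q' L Y hY hr hI
    obtain ⟨-, ⟨i, hi⟩, -⟩ := hI
    exact ⟨i + 1, ((hY.central_next P.valuation hc hr hi).1 1 one_pos
      (by have := hr.two_le; omega)).1⟩
  rcases classify P.valuation hc hz h hl with ⟨hO, hbn⟩ | ⟨q, -, hr, hI | hII⟩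
  · rcases classify P.valuation hc hz h' hl' with ⟨hO', -⟩ | ⟨q', -, hr', hI' | hII'⟩
    · exact good_neg _ h h' hO.good hO'.good ⟨0, hO 0⟩ ⟨0, hO' 0⟩
    · exact good_neg _ h h' hO.good hI'.good ⟨0, hO 0⟩ (outI h' hr' hI')
    · exact (no_O_II hP hc h' l0' h.npos hbn hr' hII').elim
  · rcases classify P.valuation hc hz h' hl' with ⟨hO', -⟩ | ⟨q', -, hr', hI' | hII'⟩
    · exact good_neg _ h h' hI.good hO'.good (outI h hr hI) ⟨0, hO' 0⟩
    · exact good_neg _ h h' hI.good hI'.good (outI h hr hI) (outI h' hr' hI')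
    · exact (hmix q ⟨hP, hc, hr, hI, hII'⟩).elim
  · rcases classify P.valuation hc hz h' hl' with ⟨hO', hbm⟩ | ⟨q', -, hr', hI' | hII'⟩
    · exact (no_O_II hP hc h l0 h'.npos hbm hr hII).elim
    · exact (hmix' q ⟨hP, hc, hr, hI', hII⟩).elim
    · obtain rfl := hr.unique P.valuation hc hr'
      obtain ⟨t, ht⟩ := hP.res (TT b c q) (TT_le_of_rot hc hr)
      obtain ⟨ε, hε, ⟨ℓ, -, hℓ⟩, hn1, -⟩ := near_II hP hc hr h l0 ht hII
      obtain ⟨ε', hε', ⟨ℓ', -, hℓ'⟩, hn2, -⟩ := near_II hP hc hr h' l0' ht hII'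
      obtain rfl := (hits_sign hε hε' hℓ hℓ').1
      have hεK : (algebraMap k K ε) ^ 2 = 1 := by rw [← map_pow, hε, map_one]
      exact II_II_neg P.valuation ⟨hc, hz, hr, h, hl, hII, hεK, hn1⟩
        ⟨hc, hz, hr, h', hl', hII', hεK, hn2⟩ hne

end Pool.Agent.helper56.P3
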